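import Pool.Agent.X179.SP.SVD

namespace Pool.Agent.X179.SP

open Filter Topology
open scoped InnerProductSpace

set_option synthInstance.maxHeartbeats 400000
set_option maxHeartbeats 4000000

variable {H : Type} [NormedAddCommGroup H] [InnerProductSpace ℂ H]
variable {A : Type} [NonUnitalNormedRing A] [NormedSpace ℂ A]

/-- The rank one operator `z ↦ ⟨y, z⟩ x`. -/
noncomputable def ro (x y : H) : H →L[ℂ] H := (innerSL ℂ y).smulRight x

lemma ro_apply (x y z : H) : ro x y z = ⟪y, z⟫_ℂ • x := by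
  simp [ro]

lemma ro_svd {x y : H} (hx : x ≠ 0) (hy : y ≠ 0) :
    IsSVD (ro x y) (fun _ : Unit => ‖x‖ * ‖y‖) (fun _ => ((‖x‖⁻¹ : ℝ) : ℂ) • x)
      (fun _ => ((‖y‖⁻¹ : ℝ) : ℂ) • y) := by
  have hx' : 0 < ‖x‖ := norm_pos_iff.2 hx
  have hy' : 0 < ‖y‖ := norm_pos_iff.2 hy
  have hone : ∀ z : H, z ≠ 0 → Orthonormal ℂ (fun _ : Unit => ((‖z‖⁻¹ : ℝ) : ℂ) • z) := by
    intro z hz
    have hz' : 0 < ‖z‖ := norm_pos_iff.2 hz
    refine ⟨fun _ => ?_, fun i j hij => (hij (Subsingleton.elim i j)).elim⟩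
    rw [norm_smul, Complex.norm_real, Real.norm_of_nonneg (by positivity), inv_mul_cancel₀ hz'.ne']
  refine ⟨fun _ => by positivity, hone x hx, hone y hy, fun z => ?_⟩
  have h1 := hasSum_fintype (fun _ : Unit =>
    (((‖x‖ * ‖y‖ : ℝ) : ℂ) * ⟪((‖y‖⁻¹ : ℝ) : ℂ) • y, z⟫_ℂ) • (((‖x‖⁻¹ : ℝ) : ℂ) • x))
  convert h1 using 1
  rw [ro_apply, Fintype.sum_unique, inner_smul_left, smul_smul, Complex.conj_ofReal]
  congr 1
  have hxc : (‖x‖ : ℂ) ≠ 0 := by exact_mod_cast hx'.ne'
  have hyc : (‖y‖ : ℂ) ≠ 0 := by exact_mod_cast hy'.ne'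
  push_cast
  field_simp

lemma rk_exists {ι : A →ₙₐ[ℂ] (H →L[ℂ] H)} (hι : IsSchatten 1 ι) (x y : H) :
    ∃ a : A, ι a = ro x y ∧ ‖a‖ ≤ ‖x‖ * ‖y‖ := by
  by_cases hx : x = 0
  · refine ⟨0, ?_, by simp; positivity⟩
    rw [map_zero]
    ext z
    simp [ro_apply, hx]
  by_cases hy : y = 0
  · refine ⟨0, ?_, by simp; positivity⟩
    rw [map_zero]
    ext z
    simp [ro_apply, hy]
  have h := ro_svd hx hy
  obtain ⟨a, ha⟩ := (hι.mem_iff _).2 ⟨Unit, _, _, _, h, Summable.of_finite⟩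
  refine ⟨a, ha, ?_⟩
  rw [← ha] at h
  have h2 := hι.norm_eq a _ _ _ _ h
  rw [h2]
  simp

/-- Rank one elements of `A`. -/
noncomputable def rk {ι : A →ₙₐ[ℂ] (H →L[ℂ] H)} (hι : IsSchatten 1 ι) (x y : H) : A :=
  (rk_exists hι x y).choose

section RK

variable {ι : A →ₙₐ[ℂ] (H →L[ℂ] H)} (hι : IsSchatten 1 ι)

lemma rk_spec (x y : H) : ι (rk hι x y) = ro x y := (rk_exists hι x y).choose_spec.1

lemma rk_norm (x y : H) : ‖rk hι x y‖ ≤ ‖x‖ * ‖y‖ := (rk_exists hι x y).choose_spec.2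

lemma rk_add_left (x x' y : H) : rk hι (x + x') y = rk hι x y + rk hι x' y := by
  apply hι.inj
  rw [map_add, rk_spec, rk_spec, rk_spec]
  ext z
  simp [ro_apply]

lemma rk_smul_left (c : ℂ) (x y : H) : rk hι (c • x) y = c • rk hι x y := by
  apply hι.inj
  rw [map_smul, rk_spec, rk_spec]
  ext z
  simp [ro_apply, smul_smul, mul_comm]

lemma rk_add_right (x y y' : H) : rk hι x (y + y') = rk hι x y + rk hι x y' := by
  apply hι.inj
  rw [map_add, rk_spec, rk_spec, rk_spec]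
  ext z
  simp [ro_apply, inner_add_left, add_smul]

lemma rk_smul_right (c : ℂ) (x y : H) : rk hι x (c • y) = (starRingEnd ℂ) c • rk hι x y := by
  apply hι.inj
  rw [map_smul, rk_spec, rk_spec]
  ext z
  simp [ro_apply, smul_smul, mul_comm]

lemma rk_mul (x y x' y' : H) : rk hι x y * rk hι x' y' = ⟪y, x'⟫_ℂ • rk hι x y' := by
  apply hι.inj
  rw [map_mul, map_smul, rk_spec, rk_spec, rk_spec]
  ext z
  change ro x y (ro x' y' z) = _
  simp [ro_apply, smul_smul, inner_smul_right, mul_comm]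

/-- `y ↦ rk x y`, as an additive map. -/
noncomputable def rkR (x : H) : H →+ A where
  toFun y := rk hι x y
  map_zero' := by
    have := rk_smul_right hι 0 x 0
    simpa using this
  map_add' := rk_add_right hι x

noncomputable def rkL (y : H) : H →+ A where
  toFun x := rk hι x y
  map_zero' := by
    have := rk_smul_left hι 0 0 y
    simpa using this
  map_add' x x' := rk_add_left hι x x' y

lemma rkR_cont (x : H) : Continuous fun y => rk hι x y :=
  AddMonoidHomClass.continuous_of_bound (rkR hι x) ‖x‖ (rk_norm hι x)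

lemma rkL_cont (y : H) : Continuous fun x => rk hι x y :=
  AddMonoidHomClass.continuous_of_bound (rkL hι y) ‖y‖ fun x => by
    rw [mul_comm]
    exact rk_norm hι x y

end RK

/-- Elements of `S_1` act with operator norm at most the trace norm. -/
lemma op_le {ι : A →ₙₐ[ℂ] (H →L[ℂ] H)} (hι : IsSchatten 1 ι) (a : A) (z : H) :
    ‖ι a z‖ ≤ ‖a‖ * ‖z‖ := by
  obtain ⟨κ, σ, u, v, hsvd, hs⟩ := (hι.mem_iff (ι a)).1 ⟨a, rfl⟩
  have hn := hι.norm_eq a κ σ u v hsvd
  simp only [Real.rpow_one, div_one] at hn hs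
  have hσ : ∀ k, σ k ≤ ‖a‖ := fun k => by
    rw [hn]
    exact hs.le_tsum k fun j _ => (hsvd.pos j).le
  have h1 := svd_norm hsvd z (‖a‖ ^ 2 * ‖z‖ ^ 2) (fun F => by
    calc ∑ k ∈ F, σ k ^ 2 * ‖⟪v k, z⟫_ℂ‖ ^ 2 ≤ ∑ k ∈ F, ‖a‖ ^ 2 * ‖⟪v k, z⟫_ℂ‖ ^ 2 :=
          Finset.sum_le_sum fun k _ => mul_le_mul_of_nonneg_right
            (pow_le_pow_left₀ (hsvd.pos k).le (hσ k) 2) (by positivity)
      _ = ‖a‖ ^ 2 * ∑ k ∈ F, ‖⟪v k, z⟫_ℂ‖ ^ 2 := (Finset.mul_sum _ _ _).symm
      _ ≤ _ := mul_le_mul_of_nonneg_left (hsvd.ov.sum_inner_products_le z) (by positivity))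
  rw [← mul_pow] at h1
  exact (pow_le_pow_iff_left₀ (norm_nonneg _) (by positivity) two_ne_zero).1 h1

lemma nuclear [CompleteSpace A] {ι : A →ₙₐ[ℂ] (H →L[ℂ] H)} (hι : IsSchatten 1 ι) (a : A) :
    ∃ (κ : Type) (σ : κ → ℝ) (u v : κ → H), (∀ k, 0 ≤ σ k) ∧ Summable σ ∧ (∀ k, ‖u k‖ = 1) ∧
      (∀ k, ‖v k‖ = 1) ∧ HasSum (fun k => (σ k : ℂ) • rk hι (u k) (v k)) a := by
  obtain ⟨κ, σ, u, v, hsvd, hs⟩ := (hι.mem_iff (ι a)).1 ⟨a, rfl⟩
  simp only [Real.rpow_one] at hs
  refine ⟨κ, σ, u, v, fun k => (hsvd.pos k).le, hs, hsvd.ou.1, hsvd.ov.1, ?_⟩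
  have hsum : Summable fun k => (σ k : ℂ) • rk hι (u k) (v k) := by
    refine Summable.of_norm (Summable.of_nonneg_of_le (fun _ => norm_nonneg _) (fun k => ?_) hs)
    rw [norm_smul, Complex.norm_real, Real.norm_of_nonneg (hsvd.pos k).le]
    have h1 := rk_norm hι (u k) (v k)
    rw [hsvd.ou.1 k, hsvd.ov.1 k, mul_one] at h1
    nlinarith [hsvd.pos k]
  obtain ⟨b, hb⟩ := hsum
  have hab : b = a := by
    apply hι.inj
    refine ContinuousLinearMap.ext fun z => ?_
    let E : A →+ H :=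
      { toFun := fun x => ι x z
        map_zero' := by simp
        map_add' := fun x y => by rw [map_add, add_apply] }
    have hE : Continuous E := AddMonoidHomClass.continuous_of_bound E ‖z‖ fun x => by
      rw [mul_comm]
      exact op_le hι x z
    have h1 := hb.map E hE
    have h2 := hsvd.hasSum z
    refine h1.unique ?_
    convert h2 using 1
    funext k
    change ι ((σ k : ℂ) • rk hι (u k) (v k)) z = _
    rw [map_smul, smul_apply, rk_spec, ro_apply, smul_smul]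
  rw [← hab]
  exact hb

theorem pos_part [CompleteSpace A] [IsScalarTower ℂ A A] [SMulCommClass ℂ A A]
    {ι : A →ₙₐ[ℂ] (H →L[ℂ] H)} (hι : IsSchatten 1 ι)
    (e : HilbertBasis ℕ ℂ H) {Y : Type} [NormedAddCommGroup Y] [NormedSpace ℂ Y]
    [CompleteSpace Y] (M : Bimod A Y) (D : A →L[ℂ] Y) (hD : IsDerivation M D) : ApproxSemiInner M D := by
  have he : Orthonormal ℂ e := e.orthonormal
  set g : H := e 0 with hg
  have hgn : ‖g‖ = 1 := he.1 0
  let Q : ℕ → H → H := fun N y => ∑ j ∈ Finset.range N, ⟪e j, y⟫_ℂ • e j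
  have hQ : ∀ y, Tendsto (fun N => Q N y) atTop (𝓝 y) := by
    intro y
    have h1 := (e.hasSum_repr y).tendsto_sum_nat
    simpa [Q, HilbertBasis.repr_apply_apply] using h1
  have hQn : ∀ N y, ‖Q N y‖ ≤ ‖y‖ := by
    intro N y
    refine (pow_le_pow_iff_left₀ (norm_nonneg _) (norm_nonneg _) two_ne_zero).1 ?_
    simp only [Q]
    rw [norm_sum_sq he]
    exact he.sum_inner_products_le y
  let ξ : ℕ → Y := fun N => ∑ j ∈ Finset.range N, M.left (rk hι (e j) g) (D (rk hι g (e j)))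
  let η : ℕ → Y := fun N => -∑ j ∈ Finset.range N, M.right (rk hι g (e j)) (D (rk hι (e j) g))
  have hΦ : ∀ N x y, M.left (rk hι x y) (ξ N) - M.right (rk hι x y) (η N) =
      M.left (rk hι x g) (D (rk hι g (Q N y))) + M.right (rk hι g y) (D (rk hι (Q N x) g)) := by
    intro N x y
    have e1 : M.left (rk hι x y) (ξ N) = M.left (rk hι x g) (D (rk hι g (Q N y))) := by
      change M.left (rk hι x y) (∑ j ∈ Finset.range N, M.left (rk hι (e j) g)
        (D (rk hι g (e j)))) = _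
      rw [map_sum]
      have h1 : rk hι g (Q N y) = ∑ j ∈ Finset.range N, ⟪y, e j⟫_ℂ • rk hι g (e j) := by
        change rkR hι g (∑ j ∈ Finset.range N, ⟪e j, y⟫_ℂ • e j) = _
        rw [map_sum]
        refine Finset.sum_congr rfl fun j _ => ?_
        change rk hι g (⟪e j, y⟫_ℂ • e j) = _
        rw [rk_smul_right, inner_conj_symm]
      rw [h1, map_sum, map_sum]
      refine Finset.sum_congr rfl fun j _ => ?_
      rw [← M.left_mul, rk_mul, map_smul, map_smul, map_smul, smul_apply]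
    have e2 : M.right (rk hι x y) (η N) = - M.right (rk hι g y) (D (rk hι (Q N x) g)) := by
      change M.right (rk hι x y) (-∑ j ∈ Finset.range N, M.right (rk hι g (e j))
        (D (rk hι (e j) g))) = _
      rw [map_neg, map_sum]
      have h1 : rk hι (Q N x) g = ∑ j ∈ Finset.range N, ⟪e j, x⟫_ℂ • rk hι (e j) g := by
        change rkL hι g (∑ j ∈ Finset.range N, ⟪e j, x⟫_ℂ • e j) = _
        rw [map_sum]
        refine Finset.sum_congr rfl fun j _ => ?_
        change rk hι (⟪e j, x⟫_ℂ • e j) g = _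
        rw [rk_smul_left]
      rw [h1, map_sum, map_sum]
      congr 1
      refine Finset.sum_congr rfl fun j _ => ?_
      rw [← M.right_mul, rk_mul, map_smul, map_smul, map_smul, smul_apply]
    rw [e1, e2, sub_neg_eq_add]
  have hL0 : 0 ≤ ‖M.left‖ := M.left.opNorm_nonneg
  have hR0 : 0 ≤ ‖M.right‖ := M.right.opNorm_nonneg
  set C := (‖M.left‖ + ‖M.right‖) * ‖D‖ with hC
  have hbd : ∀ N x y, ‖M.left (rk hι x y) (ξ N) - M.right (rk hι x y) (η N)‖ ≤ C * (‖x‖ * ‖y‖) := by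
    intro N x y
    rw [hΦ]
    have h1 : ‖M.left (rk hι x g) (D (rk hι g (Q N y)))‖ ≤ ‖M.left‖ * ‖x‖ * (‖D‖ * ‖y‖) := by
      refine (M.left.le_opNorm₂ _ _).trans ?_
      have a1 := rk_norm hι x g
      have a2 := rk_norm hι g (Q N y)
      rw [hgn, mul_one] at a1
      rw [hgn, one_mul] at a2
      have a3 : ‖D (rk hι g (Q N y))‖ ≤ ‖D‖ * ‖y‖ :=
        (D.le_opNorm _).trans (mul_le_mul_of_nonneg_left (a2.trans (hQn N y)) (norm_nonneg _))
      exact mul_le_mul (mul_le_mul_of_nonneg_left a1 hL0) a3 (norm_nonneg _)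
        (mul_nonneg hL0 (norm_nonneg _))
    have h2 : ‖M.right (rk hι g y) (D (rk hι (Q N x) g))‖ ≤ ‖M.right‖ * ‖y‖ * (‖D‖ * ‖x‖) := by
      refine (M.right.le_opNorm₂ _ _).trans ?_
      have a1 := rk_norm hι g y
      have a2 := rk_norm hι (Q N x) g
      rw [hgn, one_mul] at a1
      rw [hgn, mul_one] at a2
      have a3 : ‖D (rk hι (Q N x) g)‖ ≤ ‖D‖ * ‖x‖ :=
        (D.le_opNorm _).trans (mul_le_mul_of_nonneg_left (a2.trans (hQn N x)) (norm_nonneg _))
      exact mul_le_mul (mul_le_mul_of_nonneg_left a1 hR0) a3 (norm_nonneg _)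
        (mul_nonneg hR0 (norm_nonneg _))
    refine (norm_add_le _ _).trans ((add_le_add h1 h2).trans (le_of_eq ?_))
    rw [hC]
    ring
  have hlim : ∀ x y, Tendsto (fun N => M.left (rk hι x y) (ξ N) - M.right (rk hι x y) (η N)) atTop
      (𝓝 (D (rk hι x y))) := by
    intro x y
    simp only [hΦ]
    have h0 : D (rk hι x y) = M.left (rk hι x g) (D (rk hι g y)) +
        M.right (rk hι g y) (D (rk hι x g)) := by
      rw [← hD, rk_mul, inner_self_eq_norm_sq_to_K, hgn]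
      simp
    rw [h0]
    refine Tendsto.add ?_ ?_
    · exact ((M.left (rk hι x g)).continuous.tendsto _).comp
        ((D.continuous.tendsto _).comp (((rkR_cont hι g).tendsto y).comp (hQ y)))
    · exact ((M.right (rk hι g y)).continuous.tendsto _).comp
        ((D.continuous.tendsto _).comp (((rkL_cont hι g).tendsto x).comp (hQ x)))
  refine ⟨ℕ, inferInstance, inferInstance, inferInstance, ξ, η, fun a => ?_⟩
  obtain ⟨κ, σ, u, v, hσ0, hσs, hu, hv, ha⟩ := nuclear hι a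
  let Φ : ℕ → (A →+ Y) := fun N =>
    { toFun := fun a => M.left a (ξ N) - M.right a (η N)
      map_zero' := by simp
      map_add' := fun a b => by
        rw [map_add, map_add, add_apply, add_apply]
        abel }
  have hΦc : ∀ N, Continuous (Φ N) := by
    intro N
    refine AddMonoidHomClass.continuous_of_bound (Φ N) (‖M.left‖ * ‖ξ N‖ + ‖M.right‖ * ‖η N‖) ?_
    intro b
    change ‖M.left b (ξ N) - M.right b (η N)‖ ≤ _
    refine (norm_sub_le _ _).trans ((add_le_add (M.left.le_opNorm₂ _ _)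
      (M.right.le_opNorm₂ _ _)).trans (le_of_eq ?_))
    ring
  have h1 : ∀ N, HasSum (fun k => (σ k : ℂ) •
      (M.left (rk hι (u k) (v k)) (ξ N) - M.right (rk hι (u k) (v k)) (η N)))
      (M.left a (ξ N) - M.right a (η N)) := by
    intro N
    have h2 := ha.map (Φ N) (hΦc N)
    have e3 : (fun k => (σ k : ℂ) •
      (M.left (rk hι (u k) (v k)) (ξ N) - M.right (rk hι (u k) (v k)) (η N))) =
        (Φ N) ∘ fun k => (σ k : ℂ) • rk hι (u k) (v k) := by
      funext k
      change _ = M.left ((σ k : ℂ) • rk hι (u k) (v k)) (ξ N) -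
        M.right ((σ k : ℂ) • rk hι (u k) (v k)) (η N)
      rw [map_smul, map_smul, smul_apply, smul_apply, smul_sub]
    rw [e3]
    exact h2
  have h2 : HasSum (fun k => (σ k : ℂ) • D (rk hι (u k) (v k))) (D a) := by
    have h3 := ha.mapL D
    convert h3 using 1
    funext k
    rw [map_smul]
  have h3 := tendsto_tsum_of_dominated_convergence (𝓕 := (atTop : Filter ℕ))
    (f := fun N k => (σ k : ℂ) •
      (M.left (rk hι (u k) (v k)) (ξ N) - M.right (rk hι (u k) (v k)) (η N)))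
    (g := fun k => (σ k : ℂ) • D (rk hι (u k) (v k))) (bound := fun k => C * σ k)
    (hσs.mul_left C) (fun k => (hlim (u k) (v k)).const_smul _)
    (Eventually.of_forall fun N k => by
      have h4 := hbd N (u k) (v k)
      rw [hu, hv, one_mul, mul_one] at h4
      rw [norm_smul, Complex.norm_real, Real.norm_of_nonneg (hσ0 k), mul_comm]
      exact mul_le_mul_of_nonneg_right h4 (hσ0 k))
  rw [h2.tsum_eq] at h3
  refine h3.congr fun N => ?_
  exact (h1 N).tsum_eq

end Pool.Agent.X179.SP
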