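import Pool.Agent.X179.SP.Defs

namespace Pool.Agent.X179.SP

open Filter Topology

set_option synthInstance.maxHeartbeats 400000
set_option maxHeartbeats 4000000

section Cert

variable {A : Type} [NonUnitalNormedRing A] [NormedSpace ℂ A] [IsScalarTower ℂ A A]
  [SMulCommClass ℂ A A]

/-- Three scalars. -/
abbrev T3 : Type := ℂ × ℂ × ℂ

/-- The predual bimodule space. -/
abbrev XX (A : Type) [NonUnitalNormedRing A] [NormedSpace ℂ A] : Type :=
  (A →L[ℂ] ℂ) × (A →L[ℂ] ℂ) × T3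

/-- Value of `f·a`. -/
noncomputable def rfun (γ : Fin 3 → (A →L[ℂ] A →L[ℂ] ℂ)) (a : A) (f : XX A) : A →L[ℂ] ℂ :=
  f.1 ∘L (ContinuousLinearMap.mul ℂ A a) -
    (f.2.2.1 • γ 0 a + (f.2.2.2.1 • γ 1 a + f.2.2.2.2 • γ 2 a))

/-- Value of `a·f`. -/
noncomputable def lfun (γ : Fin 3 → (A →L[ℂ] A →L[ℂ] ℂ)) (a : A) (f : XX A) : A →L[ℂ] ℂ :=
  f.2.1 ∘L ((ContinuousLinearMap.mul ℂ A).flip a) -
    (f.2.2.1 • (γ 0).flip a + (f.2.2.2.1 • (γ 1).flip a + f.2.2.2.2 • (γ 2).flip a))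

lemma rfun_apply (γ : Fin 3 → (A →L[ℂ] A →L[ℂ] ℂ)) (a : A) (f : XX A) (x : A) :
    rfun γ a f x = f.1 (a * x) -
      (f.2.2.1 * γ 0 a x + (f.2.2.2.1 * γ 1 a x + f.2.2.2.2 * γ 2 a x)) := rfl

lemma lfun_apply (γ : Fin 3 → (A →L[ℂ] A →L[ℂ] ℂ)) (a : A) (f : XX A) (x : A) :
    lfun γ a f x = f.2.1 (x * a) -
      (f.2.2.1 * γ 0 x a + (f.2.2.2.1 * γ 1 x a + f.2.2.2.2 * γ 2 x a)) := rfl

lemma norm_XX1 (f : XX A) : ‖f.1‖ ≤ ‖f‖ := norm_fst_le f
lemma norm_XX2 (f : XX A) : ‖f.2.1‖ ≤ ‖f‖ := (norm_fst_le f.2).trans (norm_snd_le f)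
lemma norm_XX3 (f : XX A) : ‖f.2.2.1‖ ≤ ‖f‖ :=
  (norm_fst_le f.2.2).trans ((norm_snd_le f.2).trans (norm_snd_le f))
lemma norm_XX4 (f : XX A) : ‖f.2.2.2.1‖ ≤ ‖f‖ :=
  (norm_fst_le f.2.2.2).trans ((norm_snd_le f.2.2).trans ((norm_snd_le f.2).trans (norm_snd_le f)))
lemma norm_XX5 (f : XX A) : ‖f.2.2.2.2‖ ≤ ‖f‖ :=
  (norm_snd_le f.2.2.2).trans ((norm_snd_le f.2.2).trans ((norm_snd_le f.2).trans (norm_snd_le f)))

lemma bil_bound (g : A →L[ℂ] A →L[ℂ] ℂ) (a x : A) (t : ℂ) (M : ℝ) (ht : ‖t‖ ≤ M) :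
    ‖t * g a x‖ ≤ M * (‖g‖ * ‖a‖ * ‖x‖) := by
  rw [norm_mul]
  exact mul_le_mul ht (g.le_opNorm₂ a x) (norm_nonneg _) ((norm_nonneg _).trans ht)

lemma rfun_norm (γ : Fin 3 → (A →L[ℂ] A →L[ℂ] ℂ)) (a : A) (f : XX A) :
    ‖rfun γ a f‖ ≤ (1 + ‖γ 0‖ + ‖γ 1‖ + ‖γ 2‖) * ‖a‖ * ‖f‖ := by
  refine ContinuousLinearMap.opNorm_le_bound _ (by positivity) fun x => ?_
  rw [rfun_apply]
  have h0 : ‖f.1 (a * x)‖ ≤ ‖f‖ * (‖a‖ * ‖x‖) :=
    (f.1.le_opNorm _).trans (mul_le_mul (norm_XX1 f) (norm_mul_le a x) (norm_nonneg _)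
      (norm_nonneg _))
  have h1 := bil_bound (γ 0) a x _ _ (norm_XX3 f)
  have h2 := bil_bound (γ 1) a x _ _ (norm_XX4 f)
  have h3 := bil_bound (γ 2) a x _ _ (norm_XX5 f)
  refine (norm_sub_le _ _).trans ?_
  have h4 := norm_add_le (f.2.2.1 * γ 0 a x) (f.2.2.2.1 * γ 1 a x + f.2.2.2.2 * γ 2 a x)
  have h5 := norm_add_le (f.2.2.2.1 * γ 1 a x) (f.2.2.2.2 * γ 2 a x)
  calc _ ≤ ‖f‖ * (‖a‖ * ‖x‖) + (‖f‖ * (‖γ 0‖ * ‖a‖ * ‖x‖) + (‖f‖ * (‖γ 1‖ * ‖a‖ * ‖x‖) +
        ‖f‖ * (‖γ 2‖ * ‖a‖ * ‖x‖))) := by linarith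
    _ = _ := by ring

lemma lfun_norm (γ : Fin 3 → (A →L[ℂ] A →L[ℂ] ℂ)) (a : A) (f : XX A) :
    ‖lfun γ a f‖ ≤ (1 + ‖γ 0‖ + ‖γ 1‖ + ‖γ 2‖) * ‖a‖ * ‖f‖ := by
  refine ContinuousLinearMap.opNorm_le_bound _ (by positivity) fun x => ?_
  rw [lfun_apply]
  have h0 : ‖f.2.1 (x * a)‖ ≤ ‖f‖ * (‖x‖ * ‖a‖) :=
    (f.2.1.le_opNorm _).trans (mul_le_mul (norm_XX2 f) (norm_mul_le x a) (norm_nonneg _)
      (norm_nonneg _))
  have h1 := bil_bound (γ 0) x a _ _ (norm_XX3 f)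
  have h2 := bil_bound (γ 1) x a _ _ (norm_XX4 f)
  have h3 := bil_bound (γ 2) x a _ _ (norm_XX5 f)
  refine (norm_sub_le _ _).trans ?_
  have h4 := norm_add_le (f.2.2.1 * γ 0 x a) (f.2.2.2.1 * γ 1 x a + f.2.2.2.2 * γ 2 x a)
  have h5 := norm_add_le (f.2.2.2.1 * γ 1 x a) (f.2.2.2.2 * γ 2 x a)
  calc _ ≤ ‖f‖ * (‖x‖ * ‖a‖) + (‖f‖ * (‖γ 0‖ * ‖x‖ * ‖a‖) + (‖f‖ * (‖γ 1‖ * ‖x‖ * ‖a‖) +
        ‖f‖ * (‖γ 2‖ * ‖x‖ * ‖a‖))) := by linarith
    _ = _ := by ring

noncomputable def rightX (γ : Fin 3 → (A →L[ℂ] A →L[ℂ] ℂ)) : A →L[ℂ] XX A →L[ℂ] XX A :=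
  LinearMap.mkContinuous₂ (LinearMap.mk₂ ℂ (fun a f => ((rfun γ a f, 0, 0) : XX A))
    (fun a b f => by
      refine Prod.ext ?_ (by simp)
      ext x
      simp only [rfun_apply, add_mul, map_add, add_apply, Prod.fst_add]
      ring)
    (fun c a f => by
      refine Prod.ext ?_ (Prod.ext ?_ (Prod.ext (mul_zero c).symm
        (Prod.ext (mul_zero c).symm (mul_zero c).symm)))
      swap
      · ext x
        exact (mul_zero c).symm
      ext x
      simp only [rfun_apply, smul_mul_assoc, map_smul, smul_apply, Prod.smul_fst, smul_eq_mul]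
      ring)
    (fun a f g => by
      refine Prod.ext ?_ (by simp)
      ext x
      simp only [rfun_apply, add_apply, Prod.fst_add, Prod.snd_add]
      ring)
    (fun c a f => by
      refine Prod.ext ?_ (Prod.ext ?_ (Prod.ext (mul_zero c).symm
        (Prod.ext (mul_zero c).symm (mul_zero c).symm)))
      swap
      · ext x
        exact (mul_zero c).symm
      ext x
      simp only [rfun_apply, smul_apply, Prod.smul_fst, Prod.smul_snd, smul_eq_mul]
      ring)) (1 + ‖γ 0‖ + ‖γ 1‖ + ‖γ 2‖) (fun a f => by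
    refine le_trans (le_of_eq ?_) (rfun_norm γ a f)
    rw [LinearMap.mk₂_apply, Prod.norm_def]
    simp)

noncomputable def leftX (γ : Fin 3 → (A →L[ℂ] A →L[ℂ] ℂ)) : A →L[ℂ] XX A →L[ℂ] XX A :=
  LinearMap.mkContinuous₂ (LinearMap.mk₂ ℂ (fun a f => ((0, lfun γ a f, 0) : XX A))
    (fun a b f => by
      refine Prod.ext (by simp) (Prod.ext ?_ (by simp))
      ext x
      simp only [lfun_apply, mul_add, map_add, add_apply, Prod.fst_add, Prod.snd_add]
      ring)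
    (fun c a f => by
      refine Prod.ext ?_ (Prod.ext ?_ (Prod.ext (mul_zero c).symm
        (Prod.ext (mul_zero c).symm (mul_zero c).symm)))
      · ext x
        exact (mul_zero c).symm
      ext x
      simp only [lfun_apply, mul_smul_comm, map_smul, smul_apply, Prod.smul_fst, Prod.smul_snd,
        smul_eq_mul]
      ring)
    (fun a f g => by
      refine Prod.ext (by simp) (Prod.ext ?_ (by simp))
      ext x
      simp only [lfun_apply, add_apply, Prod.fst_add, Prod.snd_add]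
      ring)
    (fun c a f => by
      refine Prod.ext ?_ (Prod.ext ?_ (Prod.ext (mul_zero c).symm
        (Prod.ext (mul_zero c).symm (mul_zero c).symm)))
      · ext x
        exact (mul_zero c).symm
      ext x
      simp only [lfun_apply, smul_apply, Prod.smul_fst, Prod.smul_snd, smul_eq_mul]
      ring)) (1 + ‖γ 0‖ + ‖γ 1‖ + ‖γ 2‖) (fun a f => by
    refine le_trans (le_of_eq ?_) (lfun_norm γ a f)
    rw [LinearMap.mk₂_apply, Prod.norm_def, Prod.norm_def]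
    simp)

lemma rightX_apply (γ : Fin 3 → (A →L[ℂ] A →L[ℂ] ℂ)) (a : A) (f : XX A) :
    rightX γ a f = (rfun γ a f, 0, 0) := rfl

lemma leftX_apply (γ : Fin 3 → (A →L[ℂ] A →L[ℂ] ℂ)) (a : A) (f : XX A) :
    leftX γ a f = (0, lfun γ a f, 0) := rfl

/-- The unit vectors of `T3`. -/
def sgl : Fin 3 → T3 := ![(1, 0, 0), (0, 1, 0), (0, 0, 1)]

lemma rfun_sgl (γ : Fin 3 → (A →L[ℂ] A →L[ℂ] ℂ)) (a : A) (k : Fin 3) (α β : A →L[ℂ] ℂ) (x : A) :
    rfun γ a (α, β, sgl k) x = α (a * x) - γ k a x := by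
  rw [rfun_apply]
  fin_cases k <;> simp [sgl]

lemma lfun_sgl (γ : Fin 3 → (A →L[ℂ] A →L[ℂ] ℂ)) (a : A) (k : Fin 3) (α β : A →L[ℂ] ℂ) (x : A) :
    lfun γ a (α, β, sgl k) x = β (x * a) - γ k x a := by
  rw [lfun_apply]
  fin_cases k <;> simp [sgl]

/-- The bimodule. -/
noncomputable def MX (γ : Fin 3 → (A →L[ℂ] A →L[ℂ] ℂ))
    (hγ : ∀ k a b c, γ k (a * b) c = γ k a (b * c)) : Bimod A (XX A) where
  left := leftX γ
  right := rightX γ
  left_mul := by
    intro a b f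
    rw [leftX_apply, leftX_apply, leftX_apply]
    refine Prod.ext rfl (Prod.ext ?_ rfl)
    ext x
    simp only [lfun_apply, mul_assoc, hγ]
    simp
  right_mul := by
    intro a b f
    rw [rightX_apply, rightX_apply, rightX_apply]
    refine Prod.ext ?_ rfl
    ext x
    simp only [rfun_apply, mul_assoc, hγ]
    simp
  left_right := by
    intro a b f
    rw [rightX_apply, rightX_apply, leftX_apply, leftX_apply]
    refine Prod.ext ?_ (Prod.ext ?_ rfl)
    · ext x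
      simp [rfun_apply]
    · ext x
      simp [lfun_apply]

/-- The derivation `a ↦ (α, β, t) ↦ α(a) - β(a)`. -/
noncomputable def DX : A →L[ℂ] (XX A →L[ℂ] ℂ) :=
  LinearMap.mkContinuous₂ (LinearMap.mk₂ ℂ (fun (a : A) (f : XX A) => f.1 a - f.2.1 a)
    (fun a b f => by simp only [map_add]; ring)
    (fun c a f => by simp only [map_smul, smul_eq_mul]; ring)
    (fun a f g => by simp only [Prod.fst_add, Prod.snd_add, add_apply]; ring)
    (fun c a f => by simp only [Prod.smul_fst, Prod.smul_snd, smul_apply, smul_eq_mul]; ring))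
    2 (fun a f => by
      rw [LinearMap.mk₂_apply]
      refine (norm_sub_le _ _).trans ?_
      have h1 : ‖f.1 a‖ ≤ ‖f‖ * ‖a‖ :=
        (f.1.le_opNorm a).trans (mul_le_mul_of_nonneg_right (norm_XX1 f) (norm_nonneg _))
      have h2 : ‖f.2.1 a‖ ≤ ‖f‖ * ‖a‖ :=
        (f.2.1.le_opNorm a).trans (mul_le_mul_of_nonneg_right (norm_XX2 f) (norm_nonneg _))
      linarith)

lemma DX_apply (a : A) (f : XX A) : DX a f = f.1 a - f.2.1 a := rfl

theorem cert (γ : Fin 3 → (A →L[ℂ] A →L[ℂ] ℂ))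
    (hγ : ∀ k a b c, γ k (a * b) c = γ k a (b * c))
    (a : Fin 3 → A) (β : Fin 3 → (A →L[ℂ] ℂ))
    (h1 : ∀ x, ∑ k, γ k (a k) x = 0)
    (h2 : ∀ y, ∑ k, (β k (y * a k) - γ k y (a k)) = 0)
    (h3 : ∑ k, β k (a k) ≠ 0) : ¬ ApproxSemiAmenable A := by
  intro hA
  have hder : IsDerivation (MX γ hγ).dual DX := by
    intro a b
    refine ContinuousLinearMap.ext fun f => ?_
    rw [add_apply, dual_left, dual_right]
    change _ = DX b (rightX γ a f) + DX a (leftX γ b f)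
    rw [rightX_apply, leftX_apply]
    simp only [DX_apply, rfun_apply, lfun_apply]
    simp
  obtain ⟨ι, _, _, _, ξ, η, hlim⟩ := hA (XX A) (MX γ hγ) DX hder
  let f : Fin 3 → XX A := fun k => (0, β k, sgl k)
  have hev : ∀ k, Tendsto (fun i => ((MX γ hγ).dual.left (a k) (ξ i) -
      (MX γ hγ).dual.right (a k) (η i)) (f k)) atTop (𝓝 (DX (a k) (f k))) := fun k =>
    ((ContinuousLinearMap.apply ℂ ℂ (f k)).continuous.tendsto _).comp (hlim (a k))
  have hsum := tendsto_finsetSum (Finset.univ : Finset (Fin 3)) fun k _ => hev k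
  have hzero : ∀ i, ∑ k, ((MX γ hγ).dual.left (a k) (ξ i) -
      (MX γ hγ).dual.right (a k) (η i)) (f k) = 0 := by
    intro i
    have e1 : ∑ k, (MX γ hγ).right (a k) (f k) = 0 := by
      have : ∀ k, (MX γ hγ).right (a k) (f k) = (- (γ k (a k)), 0, 0) := by
        intro k
        change rightX γ (a k) (f k) = _
        rw [rightX_apply]
        refine Prod.ext ?_ rfl
        ext x
        simp only [f]
        rw [rfun_sgl]
        simp
      simp only [this]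
      refine Prod.ext ?_ (Prod.ext ?_ ?_)
      · ext x
        have := h1 x
        simp only [Fin.sum_univ_three] at this ⊢
        simp only [Prod.fst_add, Prod.fst_zero, add_apply, neg_apply, zero_apply]
        linear_combination -this
      · simp [Fin.sum_univ_three]
      · simp [Fin.sum_univ_three]
    have e2 : ∑ k, (MX γ hγ).left (a k) (f k) = 0 := by
      have : ∀ k, (MX γ hγ).left (a k) (f k) =
          (0, (β k) ∘L ((ContinuousLinearMap.mul ℂ A).flip (a k)) - (γ k).flip (a k), 0) := by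
        intro k
        change leftX γ (a k) (f k) = _
        rw [leftX_apply]
        refine Prod.ext rfl (Prod.ext ?_ rfl)
        ext x
        simp only [f]
        rw [lfun_sgl]
        simp
      simp only [this]
      refine Prod.ext ?_ (Prod.ext ?_ ?_)
      · simp [Fin.sum_univ_three]
      · ext x
        have := h2 x
        simp only [Fin.sum_univ_three] at this ⊢
        simp only [Prod.snd_add, Prod.fst_add, Prod.snd_zero, Prod.fst_zero, add_apply,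
          sub_apply, zero_apply, ContinuousLinearMap.flip_apply, ContinuousLinearMap.comp_apply,
          ContinuousLinearMap.mul_apply']
        linear_combination this
      · simp [Fin.sum_univ_three]
    have e3 : ∀ k, ((MX γ hγ).dual.left (a k) (ξ i) - (MX γ hγ).dual.right (a k) (η i)) (f k) =
        ξ i ((MX γ hγ).right (a k) (f k)) - η i ((MX γ hγ).left (a k) (f k)) := fun k => by
      rw [sub_apply, dual_left, dual_right]
    simp only [e3]
    rw [Finset.sum_sub_distrib, ← map_sum, ← map_sum, e1, e2]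
    simp
  simp only [hzero] at hsum
  have h4 := tendsto_nhds_unique hsum tendsto_const_nhds
  apply h3
  have h5 : ∑ k, DX (a k) (f k) = - ∑ k, β k (a k) := by
    rw [← Finset.sum_neg_distrib]
    refine Finset.sum_congr rfl fun k _ => ?_
    rw [DX_apply]
    simp [f]
  rw [h5] at h4
  exact neg_eq_zero.1 h4

end Cert

end Pool.Agent.X179.SP
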