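import Mathlib

namespace Pool.Agent.X179.SP

open Filter Topology
open scoped InnerProductSpace

universe u

/-- A Banach bimodule structure on `X` over `A`: jointly continuous left and right actions. -/
structure Bimod (A : Type) [NonUnitalNormedRing A] [NormedSpace ℂ A]
    (X : Type u) [NormedAddCommGroup X] [NormedSpace ℂ X] where
  left : A →L[ℂ] X →L[ℂ] X
  right : A →L[ℂ] X →L[ℂ] X
  left_mul : ∀ a b x, left (a * b) x = left a (left b x)
  right_mul : ∀ a b x, right (a * b) x = right b (right a x)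
  left_right : ∀ a b x, left a (right b x) = right b (left a x)

section Defs

variable {A : Type} [NonUnitalNormedRing A] [NormedSpace ℂ A]

/-- Left action on the dual: `(a·f)(x) = f(x·a)`. -/
noncomputable def dualL {X : Type u} [NormedAddCommGroup X] [NormedSpace ℂ X]
    (M : Bimod A X) : A →L[ℂ] (X →L[ℂ] ℂ) →L[ℂ] (X →L[ℂ] ℂ) :=
  (ContinuousLinearMap.compL ℂ X X ℂ).flip ∘L M.right

/-- Right action on the dual: `(f·a)(x) = f(a·x)`. -/
noncomputable def dualR {X : Type u} [NormedAddCommGroup X] [NormedSpace ℂ X]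
    (M : Bimod A X) : A →L[ℂ] (X →L[ℂ] ℂ) →L[ℂ] (X →L[ℂ] ℂ) :=
  (ContinuousLinearMap.compL ℂ X X ℂ).flip ∘L M.left

theorem dualL_mul {X : Type u} [NormedAddCommGroup X] [NormedSpace ℂ X]
    (M : Bimod A X) (a b : A) (f : X →L[ℂ] ℂ) : dualL M (a * b) f = dualL M a (dualL M b f) := by
  ext x
  simp [dualL, M.right_mul]

theorem dualR_mul {X : Type u} [NormedAddCommGroup X] [NormedSpace ℂ X]
    (M : Bimod A X) (a b : A) (f : X →L[ℂ] ℂ) : dualR M (a * b) f = dualR M b (dualR M a f) := by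
  ext x
  simp [dualR, M.left_mul]

theorem dualLR {X : Type u} [NormedAddCommGroup X] [NormedSpace ℂ X]
    (M : Bimod A X) (a b : A) (f : X →L[ℂ] ℂ) :
    dualL M a (dualR M b f) = dualR M b (dualL M a f) := by
  ext x
  simp [dualL, dualR, M.left_right]

/-- The dual bimodule: `(a·f)(x) = f(x·a)` and `(f·a)(x) = f(a·x)`. -/
noncomputable def Bimod.dual {X : Type u} [NormedAddCommGroup X] [NormedSpace ℂ X]
    (M : Bimod A X) : Bimod A (X →L[ℂ] ℂ) where
  left := dualL M
  right := dualR M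
  left_mul := dualL_mul M
  right_mul := dualR_mul M
  left_right := dualLR M

@[simp] lemma dual_left {X : Type u} [NormedAddCommGroup X] [NormedSpace ℂ X]
    (M : Bimod A X) (a : A) (f : X →L[ℂ] ℂ) (x : X) : M.dual.left a f x = f (M.right a x) := rfl

@[simp] lemma dual_right {X : Type u} [NormedAddCommGroup X] [NormedSpace ℂ X]
    (M : Bimod A X) (a : A) (f : X →L[ℂ] ℂ) (x : X) : M.dual.right a f x = f (M.left a x) := rfl

/-- `D` is a derivation into the bimodule `Y`. -/
def IsDerivation {Y : Type u} [NormedAddCommGroup Y] [NormedSpace ℂ Y]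
    (M : Bimod A Y) (D : A →L[ℂ] Y) : Prop :=
  ∀ a b, D (a * b) = M.left a (D b) + M.right b (D a)

/-- `D` is approximately semi-inner. -/
def ApproxSemiInner {Y : Type u} [NormedAddCommGroup Y] [NormedSpace ℂ Y]
    (M : Bimod A Y) (D : A →L[ℂ] Y) : Prop :=
  ∃ (ι : Type) (_ : Preorder ι) (_ : IsDirected ι (· ≤ ·)) (_ : Nonempty ι) (ξ η : ι → Y),
    ∀ a, Tendsto (fun i => M.left a (ξ i) - M.right a (η i)) atTop (𝓝 (D a))

variable (A)

/-- Approximate semi-amenability. -/
def ApproxSemiAmenable : Prop :=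
  ∀ (X : Type) [NormedAddCommGroup X] [NormedSpace ℂ X] [CompleteSpace X] (M : Bimod A X)
    (D : A →L[ℂ] (X →L[ℂ] ℂ)), IsDerivation M.dual D → ApproxSemiInner M.dual D

end Defs

section Schatten

variable {H : Type} [NormedAddCommGroup H] [InnerProductSpace ℂ H]

/-- `T = ∑ σ_k ⟨v_k, ·⟩ u_k` is a singular value decomposition: `σ_k > 0`, `u` and `v` orthonormal.
The `σ_k` are the nonzero singular values of `T`, with multiplicity. -/
structure IsSVD {κ : Type} (T : H →L[ℂ] H) (σ : κ → ℝ) (u v : κ → H) : Prop where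
  pos : ∀ k, 0 < σ k
  ou : Orthonormal ℂ u
  ov : Orthonormal ℂ v
  hasSum : ∀ x, HasSum (fun k => ((σ k : ℂ) * ⟪v k, x⟫_ℂ) • u k) (T x)

/-- The Banach algebra `A` is, through `ι`, the Schatten class `S_p` of `H`. -/
structure IsSchatten (p : ℝ) {A : Type} [NonUnitalNormedRing A] [NormedSpace ℂ A]
    (ι : A →ₙₐ[ℂ] (H →L[ℂ] H)) : Prop where
  inj : Function.Injective ι
  mem_iff : ∀ T : H →L[ℂ] H, (∃ a, ι a = T) ↔
    ∃ (κ : Type) (σ : κ → ℝ) (u v : κ → H), IsSVD T σ u v ∧ Summable fun k => σ k ^ p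
  norm_eq : ∀ (a : A) (κ : Type) (σ : κ → ℝ) (u v : κ → H), IsSVD (ι a) σ u v →
    ‖a‖ = (∑' k, σ k ^ p) ^ (1 / p)

end Schatten

end Pool.Agent.X179.SP
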