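import Pool.Agent.X179.SP.Neg

namespace Pool.Agent.X179.SP

open Filter Topology
open scoped InnerProductSpace

set_option synthInstance.maxHeartbeats 400000
set_option maxHeartbeats 4000000

variable {H : Type} [NormedAddCommGroup H] [InnerProductSpace ℂ H] [CompleteSpace H]
variable {A : Type} [NonUnitalNormedRing A] [NormedSpace ℂ A]

lemma frm_bal (ι : A →ₙₐ[ℂ] (H →L[ℂ] H)) (h : ℕ → ℝ) (ε e : ℕ → H) (a b c : A) :
    Frm ι h ε e (a * b) c = Frm ι h ε e a (b * c) := by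
  unfold Frm
  refine tsum_congr fun s => ?_
  rw [map_mul, map_mul]
  rfl

lemma hd_mul {θ : ℝ} (s : ℕ) : cw s ^ (1 - θ) * cw s ^ θ = cw s := by
  rw [← Real.rpow_add (cw_pos s), sub_add_cancel, Real.rpow_one]

lemma val1 {θ : ℝ} (ι : A →ₙₐ[ℂ] (H →L[ℂ] H)) {ε e : ℕ → H} {a : A}
    (ha : IsSVD (ι a) (fun s => cw s ^ θ) ε e) (x : A) :
    Frm ι (fun s => cw s ^ (1 - θ)) ε e a x = ∑' s, (cw s : ℂ) * ⟪e s, ι x (e s)⟫_ℂ := by
  unfold Frm
  refine tsum_congr fun s => ?_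
  rw [svd_coeff ha, ← mul_assoc, ← Complex.ofReal_mul, hd_mul]

lemma val2 {θ : ℝ} (ι : A →ₙₐ[ℂ] (H →L[ℂ] H)) {ε e : ℕ → H} {a : A}
    (ha : IsSVD (ι a) (fun s => cw s ^ θ) ε e) (y : A) :
    Frm ι (fun s => cw s ^ (1 - θ)) ε e y a = ∑' s, (cw s : ℂ) * ⟪ε s, ι y (ε s)⟫_ℂ := by
  unfold Frm
  refine tsum_congr fun s => ?_
  rw [svd_apply ha, map_smul, inner_smul_right, ← mul_assoc, ← Complex.ofReal_mul, hd_mul]

lemma tele (ψ : ℕ → ℂ) (hs : Summable fun s => (cw s : ℂ) * ψ s) :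
    (∑' s, (cw s : ℂ) * ψ (2 * s + 1)) + (∑' s, (cw s : ℂ) * ψ (2 * s + 2)) =
      2 * (∑' s, (cw s : ℂ) * ψ s) - 2 * ψ 0 := by
  have e1 : ∀ s, (cw s : ℂ) * ψ (2 * s + 1) = 2 * ((cw (2 * s + 1) : ℂ) * ψ (2 * s + 1)) := by
    intro s
    rw [← cw_one s]
    push_cast
    ring
  have e2 : ∀ s, (cw s : ℂ) * ψ (2 * s + 2) = 2 * ((cw (2 * s + 2) : ℂ) * ψ (2 * s + 2)) := by
    intro s
    rw [← cw_two s]
    push_cast
    ring
  rw [tsum_congr e1, tsum_congr e2, tsum_mul_left, tsum_mul_left, ← mul_add]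
  have h1 : Summable fun s => (cw (s + 1) : ℂ) * ψ (s + 1) := (summable_nat_add_iff 1).2 hs
  have h2 : Summable fun s => (cw (2 * s + 1) : ℂ) * ψ (2 * s + 1) :=
    h1.comp_injective (fun a b h => by simpa using h : Function.Injective fun s : ℕ => 2 * s)
  have h3 : Summable fun s => (cw (2 * s + 2) : ℂ) * ψ (2 * s + 2) :=
    h1.comp_injective (fun a b h => by simpa using h : Function.Injective fun s : ℕ => 2 * s + 1)
  have h4 := tsum_even_add_odd (f := fun s => (cw (s + 1) : ℂ) * ψ (s + 1)) h2 h3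
  have h5 := hs.tsum_eq_zero_add
  simp only [cw_zero] at h5
  have h6 : (∑' s, (cw (2 * s + 1) : ℂ) * ψ (2 * s + 1)) +
      (∑' s, (cw (2 * s + 2) : ℂ) * ψ (2 * s + 2)) = ∑' s, (cw (s + 1) : ℂ) * ψ (s + 1) := h4
  rw [h6, h5]
  push_cast
  ring

theorem neg_part [IsScalarTower ℂ A A] [SMulCommClass ℂ A A] {p : ℝ} (hp : 1 < p)
    {ι : A →ₙₐ[ℂ] (H →L[ℂ] H)} (hι : IsSchatten p ι) {e : ℕ → H} (he : Orthonormal ℂ e) :
    ¬ ApproxSemiAmenable A := by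
  obtain ⟨θ, τ, hθ0, hθ1, hθp, hτ, hYc⟩ := params hp
  have hh : ∀ s, 0 ≤ cw s ^ (1 - θ) := fun s => Real.rpow_nonneg (cw_pos s).le _
  have hht : Summable fun s => cw s ^ (1 - θ) * (cw s ^ τ) ^ 2 := by
    refine (cw_summable hτ).congr fun s => ?_
    rw [Real.rpow_add (cw_pos s), mul_comm 2 τ, Real.rpow_mul (cw_pos s).le, Real.rpow_two]
  have hY : ∀ s (x : ℝ), 0 < x → x ≤ 1 →
      cw s ^ (1 - θ) * x ^ 2 ≤ cw s ^ (1 - θ) * (cw s ^ τ) ^ 2 + x ^ p := fun s x h0 h1 =>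
    hYc (cw s) x (cw_pos s) (cw_le_one s) h0 h1
  have hd0 : ∀ s, 0 < cw s ^ θ := fun s => Real.rpow_pos_of_pos (cw_pos s) _
  have hd1 : ∀ s, cw s ^ θ ≤ 1 := fun s => Real.rpow_le_one (cw_pos s).le (cw_le_one s) hθ0.le
  have hdp : Summable fun s => (cw s ^ θ) ^ p := by
    refine (cw_summable hθp).congr fun s => ?_
    rw [Real.rpow_mul (cw_pos s).le]
  have hE1 : Orthonormal ℂ fun s => e (2 * s + 1) :=
    he.comp _ (fun a b h => by simpa using h : Function.Injective fun s : ℕ => 2 * s + 1)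
  have hE2 : Orthonormal ℂ fun s => e (2 * s + 2) :=
    he.comp _ (fun a b h => by simpa using h : Function.Injective fun s : ℕ => 2 * s + 2)
  have hmem : ∀ ε : ℕ → H, Orthonormal ℂ ε → ∃ a : A, IsSVD (ι a) (fun s => cw s ^ θ) ε e := by
    intro ε hε
    obtain ⟨T, hT⟩ := exists_svd hε he hd0 hd1
    obtain ⟨a, rfl⟩ := (hι.mem_iff T).2 ⟨ℕ, _, ε, e, hT, hdp⟩
    exact ⟨a, hT⟩
  obtain ⟨a0, ha0⟩ := hmem e he
  obtain ⟨a1, ha1⟩ := hmem _ hE1
  obtain ⟨a2, ha2⟩ := hmem _ hE2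
  obtain ⟨G0, hG0⟩ := form_exists hp hι hh hht hY he he
  obtain ⟨G1, hG1⟩ := form_exists hp hι hh hht hY hE1 he
  obtain ⟨G2, hG2⟩ := form_exists hp hι hh hht hY hE2 he
  -- evaluation at the root
  set C := (∑' s, cw s ^ (1 - θ) * (cw s ^ τ) ^ 2) + 1 with hC
  have hC0 : 0 ≤ C := by
    have : 0 ≤ ∑' s, cw s ^ (1 - θ) * (cw s ^ τ) ^ 2 :=
      tsum_nonneg fun s => mul_nonneg (hh s) (sq_nonneg _)
    linarith
  have hev : ∀ x : A, ‖⟪e 0, ι x (e 0)⟫_ℂ‖ ≤ Real.sqrt C * ‖x‖ := by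
    intro x
    have h1 := (scaled_est hp hι hh hht hY he x {0}).1
    rw [Finset.sum_singleton, cw_zero, Real.one_rpow, one_mul] at h1
    have h2 : ‖⟪e 0, ι x (e 0)⟫_ℂ‖ ≤ ‖ι x (e 0)‖ := by
      have := norm_inner_le_norm (𝕜 := ℂ) (e 0) (ι x (e 0))
      rwa [he.1 0, one_mul] at this
    refine h2.trans ?_
    refine (pow_le_pow_iff_left₀ (norm_nonneg _) (by positivity) two_ne_zero).1 ?_
    rw [mul_pow, Real.sq_sqrt hC0]
    exact h1
  let ev : A →L[ℂ] ℂ := LinearMap.mkContinuous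
    { toFun := fun x => ⟪e 0, ι x (e 0)⟫_ℂ
      map_add' := fun x y => by rw [map_add, add_apply, inner_add_right]
      map_smul' := fun c x => by
        rw [map_smul, smul_apply, inner_smul_right]
        rfl } (Real.sqrt C) hev
  have hevv : ∀ x, ev x = ⟪e 0, ι x (e 0)⟫_ℂ := fun x => rfl
  have hroot : ι a0 (e 0) = e 0 := by
    rw [svd_apply ha0 0]
    simp [cw_zero]
  refine cert ![(-2 : ℂ) • G0, G1, G2] ?_ ![a0, a1, a2] ![(-2 : ℂ) • ev, 0, 0] ?_ ?_ ?_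
  · intro k a b c
    fin_cases k
    · change ((-2 : ℂ) • G0) (a * b) c = ((-2 : ℂ) • G0) a (b * c)
      rw [smul_apply, smul_apply, smul_apply, smul_apply, hG0, hG0, frm_bal]
    · change G1 (a * b) c = G1 a (b * c)
      rw [hG1, hG1, frm_bal]
    · change G2 (a * b) c = G2 a (b * c)
      rw [hG2, hG2, frm_bal]
  · intro x
    rw [Fin.sum_univ_three]
    change ((-2 : ℂ) • G0) a0 x + G1 a1 x + G2 a2 x = 0
    rw [smul_apply, smul_apply, hG0, hG1, hG2, val1 ι ha0, val1 ι ha1, val1 ι ha2, smul_eq_mul]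
    ring
  · intro y
    rw [Fin.sum_univ_three]
    change (((-2 : ℂ) • ev) (y * a0) - ((-2 : ℂ) • G0) y a0) + (0 - G1 y a1) + (0 - G2 y a2) = 0
    rw [smul_apply, smul_apply, smul_apply, hG0, hG1, hG2, val2 ι ha0, val2 ι ha1, val2 ι ha2,
      hevv, smul_eq_mul, smul_eq_mul, map_mul]
    have h1 : ((ι y * ι a0 : H →L[ℂ] H)) (e 0) = ι y (e 0) := by
      change ι y (ι a0 (e 0)) = _
      rw [hroot]
    rw [h1]
    have hs : Summable fun s => (cw s : ℂ) * ⟪e s, ι y (e s)⟫_ℂ := by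
      refine (form_summable hp hι hh hht hY he he y a0).congr fun s => ?_
      rw [svd_apply ha0, map_smul, inner_smul_right, ← mul_assoc, ← Complex.ofReal_mul, hd_mul]
    have h2 := tele (fun s => ⟪e s, ι y (e s)⟫_ℂ) hs
    linear_combination -h2
  · rw [Fin.sum_univ_three]
    change ((-2 : ℂ) • ev) a0 + 0 + 0 ≠ 0
    rw [smul_apply, hevv, hroot, inner_self_eq_norm_sq_to_K, he.1 0]
    simp

end Pool.Agent.X179.SP
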