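import Pool.Agent.X179.SP.Defs

namespace Pool.Agent.X179.SP

open Filter Topology
open scoped InnerProductSpace

variable {H : Type} [NormedAddCommGroup H] [InnerProductSpace ℂ H] {κ : Type}

lemma norm_sum_sq {u : κ → H} (hu : Orthonormal ℂ u) (F : Finset κ) (c : κ → ℂ) :
    ‖∑ k ∈ F, c k • u k‖ ^ 2 = ∑ k ∈ F, ‖c k‖ ^ 2 := by
  have h := hu.inner_sum c c F
  rw [inner_self_eq_norm_sq_to_K] at h
  have h2 : ∑ k ∈ F, (starRingEnd ℂ) (c k) * c k = ((∑ k ∈ F, ‖c k‖ ^ 2 : ℝ) : ℂ) := by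
    push_cast
    exact Finset.sum_congr rfl fun k _ => Complex.conj_mul' (c k)
  rw [h2] at h
  have h3 : ((‖∑ k ∈ F, c k • u k‖ ^ 2 : ℝ) : ℂ) = ((∑ k ∈ F, ‖c k‖ ^ 2 : ℝ) : ℂ) := by
    rw [Complex.ofReal_pow]
    exact h
  exact Complex.ofReal_injective h3

lemma svd_norm {T : H →L[ℂ] H} {σ : κ → ℝ} {u v : κ → H} (h : IsSVD T σ u v) (x : H) (S : ℝ)
    (hS : ∀ F : Finset κ, ∑ k ∈ F, σ k ^ 2 * ‖⟪v k, x⟫_ℂ‖ ^ 2 ≤ S) : ‖T x‖ ^ 2 ≤ S := by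
  have h1 : Tendsto (fun F : Finset κ => ‖∑ k ∈ F, ((σ k : ℂ) * ⟪v k, x⟫_ℂ) • u k‖ ^ 2) atTop
      (𝓝 (‖T x‖ ^ 2)) := (Filter.Tendsto.norm (h.hasSum x)).pow 2
  refine le_of_tendsto h1 (Eventually.of_forall fun F => ?_)
  rw [norm_sum_sq h.ou]
  refine le_trans (le_of_eq ?_) (hS F)
  refine Finset.sum_congr rfl fun k _ => ?_
  rw [norm_mul, mul_pow, Complex.norm_real, Real.norm_eq_abs, sq_abs]

lemma svd_inner {T : H →L[ℂ] H} {σ : κ → ℝ} {u v : κ → H} (h : IsSVD T σ u v) (y z : H) :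
    HasSum (fun k => ((σ k : ℂ) * ⟪v k, z⟫_ℂ) * ⟪y, u k⟫_ℂ) ⟪y, T z⟫_ℂ := by
  have h1 := (h.hasSum z).mapL (innerSL ℂ y)
  simpa [inner_smul_right] using h1

lemma svd_bound {T : H →L[ℂ] H} {σ : κ → ℝ} {u v : κ → H} (h : IsSVD T σ u v) (y z : H) (S : ℝ)
    (hS : ∀ F : Finset κ, ∑ k ∈ F, σ k ^ 2 * ‖⟪u k, y⟫_ℂ‖ ^ 2 ≤ S) :
    ‖⟪y, T z⟫_ℂ‖ ^ 2 ≤ S * ‖z‖ ^ 2 := by
  have h1 : Tendsto (fun F : Finset κ => ‖∑ k ∈ F, ((σ k : ℂ) * ⟪v k, z⟫_ℂ) * ⟪y, u k⟫_ℂ‖ ^ 2)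
      atTop (𝓝 (‖⟪y, T z⟫_ℂ‖ ^ 2)) := (Filter.Tendsto.norm (svd_inner h y z)).pow 2
  refine le_of_tendsto h1 (Eventually.of_forall fun F => ?_)
  have h2 : ‖∑ k ∈ F, ((σ k : ℂ) * ⟪v k, z⟫_ℂ) * ⟪y, u k⟫_ℂ‖ ≤
      ∑ k ∈ F, (σ k * ‖⟪u k, y⟫_ℂ‖) * ‖⟪v k, z⟫_ℂ‖ := by
    refine (norm_sum_le _ _).trans (le_of_eq (Finset.sum_congr rfl fun k _ => ?_))
    rw [norm_mul, norm_mul, Complex.norm_real, Real.norm_of_nonneg (h.pos k).le,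
      norm_inner_symm y (u k)]
    ring
  have h3 := Finset.sum_mul_sq_le_sq_mul_sq F (fun k => σ k * ‖⟪u k, y⟫_ℂ‖) (fun k => ‖⟪v k, z⟫_ℂ‖)
  have h4 : ∑ k ∈ F, (σ k * ‖⟪u k, y⟫_ℂ‖) ^ 2 ≤ S := by
    refine le_trans (le_of_eq ?_) (hS F)
    exact Finset.sum_congr rfl fun k _ => by ring
  have h5 : ∑ k ∈ F, ‖⟪v k, z⟫_ℂ‖ ^ 2 ≤ ‖z‖ ^ 2 := h.ov.sum_inner_products_le z
  have hS0 : 0 ≤ S := by simpa using hS ∅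
  calc ‖∑ k ∈ F, ((σ k : ℂ) * ⟪v k, z⟫_ℂ) * ⟪y, u k⟫_ℂ‖ ^ 2
      ≤ (∑ k ∈ F, (σ k * ‖⟪u k, y⟫_ℂ‖) * ‖⟪v k, z⟫_ℂ‖) ^ 2 := by
        exact pow_le_pow_left₀ (norm_nonneg _) h2 2
    _ ≤ _ := h3
    _ ≤ S * ‖z‖ ^ 2 := mul_le_mul h4 h5 (Finset.sum_nonneg fun _ _ => by positivity) hS0

lemma svd_adj [CompleteSpace H] {T : H →L[ℂ] H} {σ : κ → ℝ} {u v : κ → H} (h : IsSVD T σ u v)
    (y : H) (S : ℝ) (hS : ∀ F : Finset κ, ∑ k ∈ F, σ k ^ 2 * ‖⟪u k, y⟫_ℂ‖ ^ 2 ≤ S) :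
    ‖ContinuousLinearMap.adjoint T y‖ ^ 2 ≤ S := by
  set z := ContinuousLinearMap.adjoint T y with hz
  have h1 := svd_bound h y z S hS
  have h2 : ⟪y, T z⟫_ℂ = ⟪z, z⟫_ℂ := by
    rw [hz, ContinuousLinearMap.adjoint_inner_left]
  rw [h2] at h1
  have h3 : ‖⟪z, z⟫_ℂ‖ = ‖z‖ ^ 2 := by
    rw [inner_self_eq_norm_sq_to_K]
    simp
  rw [h3] at h1
  have hS0 : 0 ≤ S := by simpa using hS ∅
  by_cases h0 : ‖z‖ ^ 2 = 0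
  · rw [h0]
    exact hS0
  · have hpos : 0 < ‖z‖ ^ 2 := lt_of_le_of_ne (by positivity) (Ne.symm h0)
    have h4 : ‖z‖ ^ 2 * ‖z‖ ^ 2 ≤ S * ‖z‖ ^ 2 := by rw [← sq]; exact h1
    exact le_of_mul_le_mul_right h4 hpos

/-- Key estimate. -/
lemma key_est {p : ℝ} {w : κ → H} (hw : Orthonormal ℂ w) {ε : ℕ → H} (hε : Orthonormal ℂ ε)
    {σ : κ → ℝ} (hσ0 : ∀ k, 0 < σ k) (hs : Summable fun k => σ k ^ p) (h1 : ∑' k, σ k ^ p ≤ 1)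
    (hσ1 : ∀ k, σ k ≤ 1) {h t : ℕ → ℝ} (hh : ∀ s, 0 ≤ h s) (hht : Summable fun s => h s * t s ^ 2)
    (hY : ∀ s (x : ℝ), 0 < x → x ≤ 1 → h s * x ^ 2 ≤ h s * t s ^ 2 + x ^ p) (F : Finset ℕ) :
    (∀ s, Summable fun k => σ k ^ 2 * ‖⟪w k, ε s⟫_ℂ‖ ^ 2) ∧
    ∑ s ∈ F, h s * (∑' k, σ k ^ 2 * ‖⟪w k, ε s⟫_ℂ‖ ^ 2) ≤ (∑' s, h s * t s ^ 2) + 1 := by
  have hb : ∀ s, Summable fun k => ‖⟪w k, ε s⟫_ℂ‖ ^ 2 := fun s => hw.inner_products_summable (ε s)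
  have hb1 : ∀ s, ∑' k, ‖⟪w k, ε s⟫_ℂ‖ ^ 2 ≤ 1 := fun s => by
    refine (hw.tsum_inner_products_le (ε s)).trans ?_
    rw [hε.1 s]
    norm_num
  have hS2 : ∀ s, Summable fun k => σ k ^ 2 * ‖⟪w k, ε s⟫_ℂ‖ ^ 2 := fun s => by
    refine Summable.of_nonneg_of_le (fun k => by positivity) (fun k => ?_) (hb s)
    have h2 : σ k ^ 2 ≤ 1 := pow_le_one₀ (hσ0 k).le (hσ1 k)
    nlinarith [sq_nonneg ‖⟪w k, ε s⟫_ℂ‖]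
  have hRle : ∀ s k, σ k ^ p * ‖⟪w k, ε s⟫_ℂ‖ ^ 2 ≤ σ k ^ p := fun s k => by
    have h2 : ‖⟪w k, ε s⟫_ℂ‖ ^ 2 ≤ 1 := by
      have h3 := norm_inner_le_norm (𝕜 := ℂ) (w k) (ε s)
      rw [hw.1 k, hε.1 s, mul_one] at h3
      exact pow_le_one₀ (norm_nonneg _) h3
    have h3 : 0 ≤ σ k ^ p := Real.rpow_nonneg (hσ0 k).le p
    nlinarith
  have hSp : ∀ s, Summable fun k => σ k ^ p * ‖⟪w k, ε s⟫_ℂ‖ ^ 2 := fun s =>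
    Summable.of_nonneg_of_le (fun k => mul_nonneg (Real.rpow_nonneg (hσ0 k).le p) (by positivity))
      (hRle s) hs
  refine ⟨hS2, ?_⟩
  have hstep : ∀ s, h s * (∑' k, σ k ^ 2 * ‖⟪w k, ε s⟫_ℂ‖ ^ 2) ≤
      h s * t s ^ 2 + ∑' k, σ k ^ p * ‖⟪w k, ε s⟫_ℂ‖ ^ 2 := by
    intro s
    rw [← tsum_mul_left]
    have h2 : ∑' k, h s * (σ k ^ 2 * ‖⟪w k, ε s⟫_ℂ‖ ^ 2) ≤
        ∑' k, (h s * t s ^ 2 * ‖⟪w k, ε s⟫_ℂ‖ ^ 2 + σ k ^ p * ‖⟪w k, ε s⟫_ℂ‖ ^ 2) := by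
      refine ((hS2 s).mul_left _).tsum_le_tsum (fun k => ?_) (((hb s).mul_left _).add (hSp s))
      have h3 := hY s (σ k) (hσ0 k) (hσ1 k)
      nlinarith [sq_nonneg ‖⟪w k, ε s⟫_ℂ‖]
    have h2' : ∑' k, (h s * t s ^ 2 * ‖⟪w k, ε s⟫_ℂ‖ ^ 2 + σ k ^ p * ‖⟪w k, ε s⟫_ℂ‖ ^ 2) =
        h s * t s ^ 2 * ∑' k, ‖⟪w k, ε s⟫_ℂ‖ ^ 2 + ∑' k, σ k ^ p * ‖⟪w k, ε s⟫_ℂ‖ ^ 2 := by
      rw [((hb s).mul_left _).tsum_add (hSp s), tsum_mul_left]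
    rw [h2'] at h2
    have h4 : h s * t s ^ 2 * ∑' k, ‖⟪w k, ε s⟫_ℂ‖ ^ 2 ≤ h s * t s ^ 2 * 1 :=
      mul_le_mul_of_nonneg_left (hb1 s) (mul_nonneg (hh s) (sq_nonneg _))
    linarith
  have hR : ∑ s ∈ F, ∑' k, σ k ^ p * ‖⟪w k, ε s⟫_ℂ‖ ^ 2 ≤ 1 := by
    rw [← Summable.tsum_finsetSum fun s _ => hSp s]
    refine le_trans ?_ h1
    refine (summable_sum fun s _ => hSp s).tsum_le_tsum (fun k => ?_) hs
    rw [← Finset.mul_sum]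
    have h2 : ∑ s ∈ F, ‖⟪w k, ε s⟫_ℂ‖ ^ 2 ≤ 1 := by
      have h3 := hε.sum_inner_products_le (s := F) (w k)
      rw [hw.1 k, one_pow] at h3
      refine le_trans (le_of_eq ?_) h3
      exact Finset.sum_congr rfl fun s _ => by rw [norm_inner_symm]
    have h3 : 0 ≤ σ k ^ p := Real.rpow_nonneg (hσ0 k).le p
    nlinarith
  calc ∑ s ∈ F, h s * (∑' k, σ k ^ 2 * ‖⟪w k, ε s⟫_ℂ‖ ^ 2)
      ≤ ∑ s ∈ F, (h s * t s ^ 2 + ∑' k, σ k ^ p * ‖⟪w k, ε s⟫_ℂ‖ ^ 2) :=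
        Finset.sum_le_sum fun s _ => hstep s
    _ = ∑ s ∈ F, h s * t s ^ 2 + ∑ s ∈ F, ∑' k, σ k ^ p * ‖⟪w k, ε s⟫_ℂ‖ ^ 2 :=
        Finset.sum_add_distrib
    _ ≤ _ := by
        have h5 : ∑ s ∈ F, h s * t s ^ 2 ≤ ∑' s, h s * t s ^ 2 :=
          hht.sum_le_tsum F fun s _ => mul_nonneg (hh s) (sq_nonneg _)
        linarith

/-- Existence of operators with prescribed singular value decomposition. -/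
lemma exists_svd [CompleteSpace H] {u v : ℕ → H} (hu : Orthonormal ℂ u) (hv : Orthonormal ℂ v)
    {d : ℕ → ℝ} (hd0 : ∀ n, 0 < d n) (hd1 : ∀ n, d n ≤ 1) : ∃ T : H →L[ℂ] H, IsSVD T d u v := by
  have hfin : ∀ (x : H) (F : Finset ℕ),
      ∑ k ∈ F, ‖((d k : ℂ) * ⟪v k, x⟫_ℂ)‖ ^ 2 ≤ ‖x‖ ^ 2 := by
    intro x F
    refine le_trans (Finset.sum_le_sum fun k _ => ?_) (hv.sum_inner_products_le (s := F) x)
    rw [norm_mul, Complex.norm_real, Real.norm_of_nonneg (hd0 k).le, mul_pow]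
    have h2 : d k ^ 2 ≤ 1 := pow_le_one₀ (hd0 k).le (hd1 k)
    nlinarith [sq_nonneg ‖⟪v k, x⟫_ℂ‖]
  have hsum : ∀ x : H, Summable fun k => ((d k : ℂ) * ⟪v k, x⟫_ℂ) • u k := by
    intro x
    have h1 := (hu.orthogonalFamily.summable_iff_norm_sq_summable
      (fun k => ((d k : ℂ) * ⟪v k, x⟫_ℂ))).2
      (summable_of_sum_le (fun k => by positivity) (hfin x))
    simpa using h1
  let L : H →ₗ[ℂ] H :=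
    { toFun := fun x => ∑' k, ((d k : ℂ) * ⟪v k, x⟫_ℂ) • u k
      map_add' := fun x y => by
        rw [← (hsum x).tsum_add (hsum y)]
        refine tsum_congr fun k => ?_
        rw [inner_add_right, mul_add, add_smul]
      map_smul' := fun c x => by
        rw [RingHom.id_apply, ← (hsum x).tsum_const_smul]
        refine tsum_congr fun k => ?_
        rw [inner_smul_right, smul_smul]
        congr 1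
        ring }
  refine ⟨L.mkContinuous 1 (fun x => ?_), hd0, hu, hv, fun x => (hsum x).hasSum⟩
  rw [one_mul]
  have h1 : Tendsto (fun F : Finset ℕ => ‖∑ k ∈ F, ((d k : ℂ) * ⟪v k, x⟫_ℂ) • u k‖ ^ 2) atTop
      (𝓝 (‖L x‖ ^ 2)) := (Filter.Tendsto.norm (hsum x).hasSum).pow 2
  have h2 : ‖L x‖ ^ 2 ≤ ‖x‖ ^ 2 := by
    refine le_of_tendsto h1 (Eventually.of_forall fun F => ?_)
    rw [norm_sum_sq hu]
    exact hfin x F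
  exact (pow_le_pow_iff_left₀ (norm_nonneg _) (norm_nonneg _) two_ne_zero).1 h2

lemma svd_coeff {T : H →L[ℂ] H} {d : ℕ → ℝ} {u v : ℕ → H} (h : IsSVD T d u v) (j : ℕ) (z : H) :
    ⟪u j, T z⟫_ℂ = (d j : ℂ) * ⟪v j, z⟫_ℂ := by
  have h1 := svd_inner h (u j) z
  have h2 : HasSum (fun k => ((d k : ℂ) * ⟪v k, z⟫_ℂ) * ⟪u j, u k⟫_ℂ)
      (((d j : ℂ) * ⟪v j, z⟫_ℂ) * ⟪u j, u j⟫_ℂ) := by
    refine hasSum_single j fun k hk => ?_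
    rw [h.ou.inner_eq_zero (Ne.symm hk), mul_zero]
  rw [h1.unique h2, inner_self_eq_norm_sq_to_K, h.ou.1 j]
  simp

lemma svd_apply {T : H →L[ℂ] H} {d : ℕ → ℝ} {u v : ℕ → H} (h : IsSVD T d u v) (j : ℕ) :
    T (v j) = (d j : ℂ) • u j := by
  have h2 : HasSum (fun k => ((d k : ℂ) * ⟪v k, v j⟫_ℂ) • u k)
      (((d j : ℂ) * ⟪v j, v j⟫_ℂ) • u j) := by
    refine hasSum_single j fun k hk => ?_
    rw [h.ov.inner_eq_zero hk, mul_zero, zero_smul]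
  rw [(h.hasSum (v j)).unique h2, inner_self_eq_norm_sq_to_K, h.ov.1 j]
  simp

end Pool.Agent.X179.SP
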