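import Mathlib

namespace Pool.Agent.X179.SP

open Filter Topology

/-- `2^{-level}` on the binary tree. -/
noncomputable def cw (s : ℕ) : ℝ := (1 / 2 : ℝ) ^ (Nat.log 2 (s + 1))

lemma cw_pos (s : ℕ) : 0 < cw s := by unfold cw; positivity

lemma cw_le_one (s : ℕ) : cw s ≤ 1 := by
  unfold cw
  exact pow_le_one₀ (by norm_num) (by norm_num)

lemma cw_zero : cw 0 = 1 := by
  unfold cw
  simp

lemma cw_one (s : ℕ) : 2 * cw (2 * s + 1) = cw s := by
  unfold cw
  have h : Nat.log 2 (2 * s + 1 + 1) = Nat.log 2 (s + 1) + 1 := by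
    rw [show 2 * s + 1 + 1 = (s + 1) * 2 by ring]
    exact Nat.log_mul_base (by norm_num) (by omega)
  rw [h, pow_succ]
  ring

lemma cw_two (s : ℕ) : 2 * cw (2 * s + 2) = cw s := by
  unfold cw
  have h : Nat.log 2 (2 * s + 2 + 1) = Nat.log 2 (s + 1) + 1 := by
    rw [Nat.log_of_one_lt_of_le (by norm_num) (by omega)]
    congr 2
    omega
  rw [h, pow_succ]
  ring

lemma cw_le (s : ℕ) : cw s ≤ 2 / ((s : ℝ) + 1) := by
  unfold cw
  have h : s + 1 < 2 ^ (Nat.log 2 (s + 1) + 1) := Nat.lt_pow_succ_log_self (by norm_num) _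
  have h2 : ((s : ℝ) + 1) < 2 ^ (Nat.log 2 (s + 1)) * 2 := by
    have : ((s + 1 : ℕ) : ℝ) < ((2 ^ (Nat.log 2 (s + 1) + 1) : ℕ) : ℝ) := by exact_mod_cast h
    push_cast at this
    rw [pow_succ] at this
    exact this
  have h3 : (0 : ℝ) < 2 ^ (Nat.log 2 (s + 1)) := by positivity
  rw [one_div, inv_pow, inv_eq_one_div, div_le_div_iff₀ h3 (by positivity)]
  linarith

lemma cw_summable {x : ℝ} (hx : 1 < x) : Summable fun s => cw s ^ x := by
  have h1 : Summable fun s : ℕ => (2 : ℝ) ^ x * (1 / ((s + 1 : ℕ) : ℝ) ^ x) :=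
    (((Real.summable_one_div_nat_rpow).2 hx).comp_injective (Nat.succ_injective)).mul_left _
  refine Summable.of_nonneg_of_le (fun s => Real.rpow_nonneg (cw_pos s).le x) (fun s => ?_) h1
  have h2 : cw s ^ x ≤ (2 / ((s : ℝ) + 1)) ^ x :=
    Real.rpow_le_rpow (cw_pos s).le (cw_le s) (by linarith)
  refine h2.trans (le_of_eq ?_)
  rw [Real.div_rpow (by norm_num) (by positivity)]
  push_cast
  ring

lemma params {p : ℝ} (hp : 1 < p) : ∃ θ τ : ℝ, 0 < θ ∧ θ ≤ 1 ∧ 1 < θ * p ∧ 1 < 1 - θ + 2 * τ ∧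
    ∀ c x : ℝ, 0 < c → c ≤ 1 → 0 < x → x ≤ 1 →
      c ^ (1 - θ) * x ^ 2 ≤ c ^ (1 - θ) * (c ^ τ) ^ 2 + x ^ p := by
  rcases le_or_gt p 2 with h2 | h2
  · refine ⟨1, 1, by norm_num, le_refl _, by linarith, by norm_num, ?_⟩
    intro c x hc _ hx hx1
    rw [sub_self, Real.rpow_zero, one_mul, one_mul, Real.rpow_one]
    have h3 : x ^ (2 : ℝ) ≤ x ^ p := Real.rpow_le_rpow_of_exponent_ge hx hx1 h2
    rw [Real.rpow_two] at h3
    nlinarith [sq_nonneg c]
  · have hp0 : 0 < p := by linarith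
    have hp2 : 0 < p - 2 := by linarith
    have hθ1 : 3 / (2 * p) < 1 := by
      rw [div_lt_one (by positivity)]
      linarith
    refine ⟨3 / (2 * p), (1 - 3 / (2 * p)) / (p - 2), by positivity, hθ1.le, ?_, ?_, ?_⟩
    · rw [div_mul_eq_mul_div, lt_div_iff₀ (by positivity)]
      linarith
    · have h3 : (3 / (2 * p)) < 2 * ((1 - 3 / (2 * p)) / (p - 2)) := by
        rw [mul_div_assoc', lt_div_iff₀ hp2]
        have h4 : 3 / (2 * p) * (p - 2) = 3 / 2 - 3 / p := by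
          field_simp
        have h5 : 2 * (1 - 3 / (2 * p)) = 2 - 3 / p := by
          field_simp
        rw [h4, h5]
        linarith
      linarith
    · intro c x hc hc1 hx hx1
      set θ := 3 / (2 * p) with hθ
      set τ := (1 - θ) / (p - 2) with hτ
      have hcp : 0 < c ^ (1 - θ) := Real.rpow_pos_of_pos hc _
      rcases le_or_gt x (c ^ τ) with h | h
      · have h3 : x ^ 2 ≤ (c ^ τ) ^ 2 := pow_le_pow_left₀ hx.le h 2
        have h4 : 0 < x ^ p := Real.rpow_pos_of_pos hx _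
        nlinarith
      · have h3 : c ^ (1 - θ) = (c ^ τ) ^ (p - 2) := by
          rw [← Real.rpow_mul hc.le, hτ, div_mul_cancel₀ _ hp2.ne']
        have h4 : (c ^ τ) ^ (p - 2) ≤ x ^ (p - 2) :=
          Real.rpow_le_rpow (Real.rpow_nonneg hc.le _) h.le hp2.le
        have h5 : x ^ p = x ^ (p - 2) * x ^ 2 := by
          rw [← Real.rpow_two, ← Real.rpow_add hx]
          congr 1
          ring
        rw [h5]
        have h6 : c ^ (1 - θ) * x ^ 2 ≤ x ^ (p - 2) * x ^ 2 := by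
          rw [h3]
          exact mul_le_mul_of_nonneg_right h4 (sq_nonneg x)
        have h7 : 0 ≤ c ^ (1 - θ) * (c ^ τ) ^ 2 := by positivity
        linarith

end Pool.Agent.X179.SP
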