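import Pool.Agent.X179.SP.Cert
import Pool.Agent.X179.SP.SVD
import Pool.Agent.X179.SP.Weights

namespace Pool.Agent.X179.SP

open Filter Topology
open scoped InnerProductSpace

set_option synthInstance.maxHeartbeats 400000
set_option maxHeartbeats 4000000

variable {H : Type} [NormedAddCommGroup H] [InnerProductSpace ℂ H] [CompleteSpace H]
variable {A : Type} [NonUnitalNormedRing A] [NormedSpace ℂ A]

/-- Estimates for elements of the unit ball. -/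
lemma unit_est {p : ℝ} (hp : 1 < p) {ι : A →ₙₐ[ℂ] (H →L[ℂ] H)} (hι : IsSchatten p ι)
    {h t : ℕ → ℝ} (hh : ∀ s, 0 ≤ h s) (hht : Summable fun s => h s * t s ^ 2)
    (hY : ∀ s (x : ℝ), 0 < x → x ≤ 1 → h s * x ^ 2 ≤ h s * t s ^ 2 + x ^ p)
    {ε : ℕ → H} (hε : Orthonormal ℂ ε) (x : A) (hx : ‖x‖ ≤ 1) (F : Finset ℕ) :
    ∑ s ∈ F, h s * ‖ι x (ε s)‖ ^ 2 ≤ (∑' s, h s * t s ^ 2) + 1 ∧
    ∑ s ∈ F, h s * ‖ContinuousLinearMap.adjoint (ι x) (ε s)‖ ^ 2 ≤ (∑' s, h s * t s ^ 2) + 1 := by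
  obtain ⟨κ, σ, u, v, hsvd, hs⟩ := (hι.mem_iff (ι x)).1 ⟨x, rfl⟩
  have hn := hι.norm_eq x κ σ u v hsvd
  have hp0 : 0 < p := by linarith
  have hT0 : 0 ≤ ∑' k, σ k ^ p := tsum_nonneg fun k => Real.rpow_nonneg (hsvd.pos k).le p
  have h1 : ∑' k, σ k ^ p ≤ 1 := by
    by_contra hcon
    push Not at hcon
    have h2 : (1 : ℝ) < (∑' k, σ k ^ p) ^ (1 / p) := Real.one_lt_rpow hcon (by positivity)
    rw [← hn] at h2
    linarith
  have hσ1 : ∀ k, σ k ≤ 1 := by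
    intro k
    by_contra hcon
    push Not at hcon
    have h2 : (1 : ℝ) < σ k ^ p := Real.one_lt_rpow hcon hp0
    have h3 := hs.le_tsum k fun j _ => Real.rpow_nonneg (hsvd.pos j).le p
    linarith
  constructor
  · obtain ⟨hS, hsum⟩ := key_est hsvd.ov hε hsvd.pos hs h1 hσ1 hh hht hY F
    refine le_trans (Finset.sum_le_sum fun s _ => mul_le_mul_of_nonneg_left ?_ (hh s)) hsum
    exact svd_norm hsvd (ε s) _ fun G => (hS s).sum_le_tsum G fun k _ => by positivity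
  · obtain ⟨hS, hsum⟩ := key_est hsvd.ou hε hsvd.pos hs h1 hσ1 hh hht hY F
    refine le_trans (Finset.sum_le_sum fun s _ => mul_le_mul_of_nonneg_left ?_ (hh s)) hsum
    exact svd_adj hsvd (ε s) _ fun G => (hS s).sum_le_tsum G fun k _ => by positivity

lemma scaled_est {p : ℝ} (hp : 1 < p) {ι : A →ₙₐ[ℂ] (H →L[ℂ] H)} (hι : IsSchatten p ι)
    {h t : ℕ → ℝ} (hh : ∀ s, 0 ≤ h s) (hht : Summable fun s => h s * t s ^ 2)
    (hY : ∀ s (x : ℝ), 0 < x → x ≤ 1 → h s * x ^ 2 ≤ h s * t s ^ 2 + x ^ p)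
    {ε : ℕ → H} (hε : Orthonormal ℂ ε) (x : A) (F : Finset ℕ) :
    ∑ s ∈ F, h s * ‖ι x (ε s)‖ ^ 2 ≤ ((∑' s, h s * t s ^ 2) + 1) * ‖x‖ ^ 2 ∧
    ∑ s ∈ F, h s * ‖ContinuousLinearMap.adjoint (ι x) (ε s)‖ ^ 2 ≤
      ((∑' s, h s * t s ^ 2) + 1) * ‖x‖ ^ 2 := by
  by_cases hx0 : x = 0
  · subst hx0
    simp
  have hxn : 0 < ‖x‖ := norm_pos_iff.2 hx0
  set c : ℂ := ((‖x‖⁻¹ : ℝ) : ℂ) with hc
  have hcn : ‖c‖ = ‖x‖⁻¹ := by
    rw [hc, Complex.norm_real, Real.norm_of_nonneg (by positivity)]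
  have hx1 : ‖c • x‖ ≤ 1 := by
    rw [norm_smul, hcn, inv_mul_cancel₀ hxn.ne']
  obtain ⟨h1, h2⟩ := unit_est hp hι hh hht hY hε (c • x) hx1 F
  have e1 : ∀ s, h s * ‖ι (c • x) (ε s)‖ ^ 2 = (‖x‖ ^ 2)⁻¹ * (h s * ‖ι x (ε s)‖ ^ 2) := fun s => by
    rw [map_smul, smul_apply, norm_smul, hcn]
    ring
  have e2 : ∀ s, h s * ‖ContinuousLinearMap.adjoint (ι (c • x)) (ε s)‖ ^ 2 =
      (‖x‖ ^ 2)⁻¹ * (h s * ‖ContinuousLinearMap.adjoint (ι x) (ε s)‖ ^ 2) := fun s => by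
    rw [map_smul, map_smulₛₗ, smul_apply, norm_smul, RCLike.norm_conj, hcn]
    ring
  simp only [e1] at h1
  simp only [e2] at h2
  rw [← Finset.mul_sum] at h1 h2
  have hx2 : 0 < ‖x‖ ^ 2 := by positivity
  rw [inv_mul_le_iff₀ hx2] at h1 h2
  constructor
  · linarith
  · linarith

lemma term_bound (T S : H →L[ℂ] H) (a b : H) :
    ‖⟪a, T (S b)⟫_ℂ‖ ≤ ‖ContinuousLinearMap.adjoint T a‖ * ‖S b‖ := by
  rw [← ContinuousLinearMap.adjoint_inner_left]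
  exact norm_inner_le_norm _ _

/-- Finite-sum estimate of the bilinear form. -/
lemma form_fin {p : ℝ} (hp : 1 < p) {ι : A →ₙₐ[ℂ] (H →L[ℂ] H)} (hι : IsSchatten p ι)
    {h t : ℕ → ℝ} (hh : ∀ s, 0 ≤ h s) (hht : Summable fun s => h s * t s ^ 2)
    (hY : ∀ s (x : ℝ), 0 < x → x ≤ 1 → h s * x ^ 2 ≤ h s * t s ^ 2 + x ^ p)
    {ε e : ℕ → H} (hε : Orthonormal ℂ ε) (he : Orthonormal ℂ e) (x y : A) (F : Finset ℕ) :
    ∑ s ∈ F, ‖(h s : ℂ) * ⟪ε s, ι x (ι y (e s))⟫_ℂ‖ ≤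
      ((∑' s, h s * t s ^ 2) + 1) * ‖x‖ * ‖y‖ := by
  set C := (∑' s, h s * t s ^ 2) + 1 with hC
  have hC0 : 0 ≤ C := by
    have : 0 ≤ ∑' s, h s * t s ^ 2 := tsum_nonneg fun s => mul_nonneg (hh s) (sq_nonneg _)
    linarith
  have h1 := (scaled_est hp hι hh hht hY hε x F).2
  have h2 := (scaled_est hp hι hh hht hY he y F).1
  have h3 : ∑ s ∈ F, ‖(h s : ℂ) * ⟪ε s, ι x (ι y (e s))⟫_ℂ‖ ≤
      ∑ s ∈ F, (Real.sqrt (h s) * ‖ContinuousLinearMap.adjoint (ι x) (ε s)‖) *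
        (Real.sqrt (h s) * ‖ι y (e s)‖) := by
    refine Finset.sum_le_sum fun s _ => ?_
    rw [norm_mul, Complex.norm_real, Real.norm_of_nonneg (hh s)]
    have h4 := term_bound (ι x) (ι y) (ε s) (e s)
    have h5 : Real.sqrt (h s) * Real.sqrt (h s) = h s := Real.mul_self_sqrt (hh s)
    calc h s * ‖⟪ε s, ι x (ι y (e s))⟫_ℂ‖
        ≤ h s * (‖ContinuousLinearMap.adjoint (ι x) (ε s)‖ * ‖ι y (e s)‖) :=
          mul_le_mul_of_nonneg_left h4 (hh s)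
      _ = (Real.sqrt (h s) * Real.sqrt (h s)) *
          (‖ContinuousLinearMap.adjoint (ι x) (ε s)‖ * ‖ι y (e s)‖) := by rw [h5]
      _ = _ := by ring
  have h4 := Finset.sum_mul_sq_le_sq_mul_sq F
    (fun s => Real.sqrt (h s) * ‖ContinuousLinearMap.adjoint (ι x) (ε s)‖)
    (fun s => Real.sqrt (h s) * ‖ι y (e s)‖)
  have e1 : ∑ s ∈ F, (Real.sqrt (h s) * ‖ContinuousLinearMap.adjoint (ι x) (ε s)‖) ^ 2 ≤
      C * ‖x‖ ^ 2 := by
    refine le_trans (le_of_eq (Finset.sum_congr rfl fun s _ => ?_)) h1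
    rw [mul_pow, Real.sq_sqrt (hh s)]
  have e2 : ∑ s ∈ F, (Real.sqrt (h s) * ‖ι y (e s)‖) ^ 2 ≤ C * ‖y‖ ^ 2 := by
    refine le_trans (le_of_eq (Finset.sum_congr rfl fun s _ => ?_)) h2
    rw [mul_pow, Real.sq_sqrt (hh s)]
  refine h3.trans ?_
  have h5 : (∑ s ∈ F, (Real.sqrt (h s) * ‖ContinuousLinearMap.adjoint (ι x) (ε s)‖) *
        (Real.sqrt (h s) * ‖ι y (e s)‖)) ^ 2 ≤ (C * ‖x‖ * ‖y‖) ^ 2 := by
    refine h4.trans ((mul_le_mul e1 e2 (Finset.sum_nonneg fun _ _ => by positivity)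
      (by positivity)).trans (le_of_eq (by ring)))
  exact (pow_le_pow_iff_left₀ (Finset.sum_nonneg fun s _ => by positivity) (by positivity)
    two_ne_zero).1 h5

/-- The bilinear form. -/
noncomputable def Frm (ι : A →ₙₐ[ℂ] (H →L[ℂ] H)) (h : ℕ → ℝ) (ε e : ℕ → H) (x y : A) : ℂ :=
  ∑' s, (h s : ℂ) * ⟪ε s, ι x (ι y (e s))⟫_ℂ

lemma form_summable {p : ℝ} (hp : 1 < p) {ι : A →ₙₐ[ℂ] (H →L[ℂ] H)} (hι : IsSchatten p ι)
    {h t : ℕ → ℝ} (hh : ∀ s, 0 ≤ h s) (hht : Summable fun s => h s * t s ^ 2)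
    (hY : ∀ s (x : ℝ), 0 < x → x ≤ 1 → h s * x ^ 2 ≤ h s * t s ^ 2 + x ^ p)
    {ε e : ℕ → H} (hε : Orthonormal ℂ ε) (he : Orthonormal ℂ e) (x y : A) :
    Summable fun s => (h s : ℂ) * ⟪ε s, ι x (ι y (e s))⟫_ℂ := by
  refine Summable.of_norm ?_
  exact summable_of_sum_le (fun _ => norm_nonneg _)
    (form_fin hp hι hh hht hY hε he x y)

lemma form_exists {p : ℝ} (hp : 1 < p) {ι : A →ₙₐ[ℂ] (H →L[ℂ] H)} (hι : IsSchatten p ι)
    {h t : ℕ → ℝ} (hh : ∀ s, 0 ≤ h s) (hht : Summable fun s => h s * t s ^ 2)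
    (hY : ∀ s (x : ℝ), 0 < x → x ≤ 1 → h s * x ^ 2 ≤ h s * t s ^ 2 + x ^ p)
    {ε e : ℕ → H} (hε : Orthonormal ℂ ε) (he : Orthonormal ℂ e) :
    ∃ G : A →L[ℂ] A →L[ℂ] ℂ, ∀ x y, G x y = Frm ι h ε e x y := by
  have hsm := fun x y => form_summable hp hι hh hht hY hε he x y
  refine ⟨LinearMap.mkContinuous₂ (LinearMap.mk₂ ℂ (Frm ι h ε e) ?_ ?_ ?_ ?_)
    ((∑' s, h s * t s ^ 2) + 1) ?_, fun x y => rfl⟩
  · intro x x' y
    unfold Frm
    rw [← (hsm x y).tsum_add (hsm x' y)]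
    refine tsum_congr fun s => ?_
    rw [map_add, add_apply, inner_add_right]
    ring
  · intro c x y
    unfold Frm
    rw [smul_eq_mul, ← tsum_mul_left]
    refine tsum_congr fun s => ?_
    rw [map_smul, smul_apply, inner_smul_right]
    ring
  · intro x y y'
    unfold Frm
    rw [← (hsm x y).tsum_add (hsm x y')]
    refine tsum_congr fun s => ?_
    rw [map_add, add_apply, map_add, inner_add_right]
    ring
  · intro c x y
    unfold Frm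
    rw [smul_eq_mul, ← tsum_mul_left]
    refine tsum_congr fun s => ?_
    rw [map_smul, smul_apply, map_smul, inner_smul_right]
    ring
  · intro x y
    rw [LinearMap.mk₂_apply]
    unfold Frm
    refine (norm_tsum_le_tsum_norm (hsm x y).norm).trans ?_
    exact (hsm x y).norm.tsum_le_of_sum_le (form_fin hp hι hh hht hY hε he x y)

end Pool.Agent.X179.SP
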